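import Pool.Agent.Y254.HK.Stm
import Pool.Agent.W975.HD.Geo1
import Pool.Agent.W372.HM.LevMom

/-!
# Level sets and moments of the multiplicity, with a loss `n ^ ε`
-/

set_option autoImplicit false

open Finset
open scoped Classical

namespace Pool.Agent.Y574.HK
open Pool.Agent.W904.AK Pool.Agent.W46.HD Pool.Agent.W46.HM Pool.Agent.Y244.HM
  Pool.Agent.Y254HK

/-- Level sets of the multiplicity, with a small loss. -/
def LevE (d : ℕ) (c : ℝ) : Prop := ∀ ε : ℝ, 0 < ε → ∃ C : ℝ, 0 ≤ C ∧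
    ∀ (n : ℕ) (Ω : Type) [Fintype Ω] [Nonempty Ω] (A D : Ω → Fin d → ℝ), IsFam n D →
    ∀ (F : Finset (Fin n × (Fin d → ℤ))) (m : ℝ), 1 ≤ m →
    (∀ x ∈ F, m ≤ Pool.Agent.W46.HM.mult A D x.1 x.2) →
    (F.card : ℝ) ≤ C * (n : ℝ) ^ ε * n * (Fintype.card Ω : ℝ) ^ (-(1 : ℝ) / d) *
      ((Fintype.card Ω : ℝ) / m) ^ (1 + c / d)

/-- Moments of the multiplicity of the cells, with a small loss. -/
def MomE (d : ℕ) (q : ℝ) : Prop := ∀ ε : ℝ, 0 < ε →
    ∃ C : ℝ, 0 ≤ C ∧ ∀ (n : ℕ) (Ω : Type) [Fintype Ω] [Nonempty Ω] (A D : Ω → Fin d → ℝ),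
    IsFam n D → ∀ F : Finset (Fin n × (Fin d → ℤ)),
    ∑ x ∈ F, ((Pool.Agent.W46.HM.mult A D x.1 x.2 : ℕ) : ℝ) ^ q ≤
      C * (n : ℝ) ^ ε * n * (Fintype.card Ω : ℝ) ^ (q - 1 / (d : ℝ))

theorem levE {d : ℕ} (hd : 1 ≤ d) {c : ℝ} (hc : 1 ≤ c) (h : AllE d c) : LevE d c := by
  intro ε hε
  have hdp : (0 : ℝ) < d := by
    have : 0 < d := by omega
    exact_mod_cast this
  obtain ⟨C0, hC0, hS⟩ := h (ε * d) (by positivity)
  refine ⟨Real.exp (C0 / d), (Real.exp_pos _).le, ?_⟩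
  intro n Ω _ _ A D hfam F m hm hF
  have hn : (1 : ℝ) ≤ n := by exact_mod_cast hfam.pos
  have hM : (1 : ℝ) ≤ (Fintype.card Ω : ℝ) := by exact_mod_cast Fintype.card_pos
  rcases F.eq_empty_or_nonempty with hE | hE
  · rw [hE, Finset.card_empty, Nat.cast_zero]
    positivity
  obtain ⟨Inc, hInc⟩ : ∃ Inc : Finset (Ω × Fin n),
      Inc = Finset.univ.filter fun z : Ω × Fin n => (z.2, cell A D z.2 z.1) ∈ F := ⟨_, rfl⟩
  have hcard : m * F.card ≤ Inc.card := by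
    have h1 : Inc.card = ∑ x ∈ F, Pool.Agent.W46.HM.mult A D x.1 x.2 := by
      have h0 := Finset.card_eq_sum_card_fiberwise
        (s := Finset.univ.filter fun z : Ω × Fin n => (z.2, cell A D z.2 z.1) ∈ F)
        (f := fun z : Ω × Fin n => (z.2, cell A D z.2 z.1)) (t := F)
        (fun z hz => by simpa using hz)
      rw [hInc, h0]
      refine Finset.sum_congr rfl fun x hx => ?_
      unfold Pool.Agent.W46.HM.mult
      refine Finset.card_bij (fun z _ => z.1) ?_ ?_ ?_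
      · intro z hz
        rw [Finset.mem_filter, Finset.mem_filter] at hz
        rw [Finset.mem_filter]
        refine ⟨Finset.mem_univ _, ?_⟩
        rw [← hz.2]
      · intro z hz z' hz' hzz
        rw [Finset.mem_filter] at hz hz'
        have e1 := congrArg Prod.fst (hz.2.trans hz'.2.symm)
        exact Prod.ext hzz e1
      · intro w hw
        rw [Finset.mem_filter] at hw
        refine ⟨(w, x.1), ?_, rfl⟩
        rw [Finset.mem_filter, Finset.mem_filter]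
        have e1 : (x.1, cell A D x.1 w) = x := by rw [hw.2]
        exact ⟨⟨Finset.mem_univ _, by rw [e1]; exact hx⟩, e1⟩
    rw [h1, mul_comm]
    push_cast
    rw [← nsmul_eq_mul]
    exact Finset.card_nsmul_le_sum F _ m hF
  have hFc : (0 : ℝ) < F.card := by exact_mod_cast hE.card_pos
  have hIc : (0 : ℝ) < Inc.card := lt_of_lt_of_le (by positivity) hcard
  have hIne : Inc.Nonempty := by
    rw [← Finset.card_pos]
    exact_mod_cast hIc
  obtain ⟨p, hlaw, hp, hid⟩ := Pool.Agent.W372.HM.H_id_unif Inc hIne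
  have hmain := hS n Ω A D hfam p hlaw
  have hsub : H p id ≤ H p Prod.fst + H p (Prod.snd : Ω × Fin n → Fin n) :=
    subadd hlaw (k := id) (fun x y _ _ hxy => hxy)
  have hJ : H p (fun z => (z.2, cell A D z.2 z.1)) ≤ Real.log F.card := by
    refine H_le_log_card hlaw _ F fun z hz => ?_
    have : z ∈ Inc := hp z hz
    rw [hInc, Finset.mem_filter] at this
    exact this.2
  have hh1 : H p Prod.fst ≤ Real.log (Fintype.card Ω) := by
    have := H_le_log_card hlaw (Prod.fst : Ω × Fin n → Ω) Finset.univ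
      (fun _ _ => Finset.mem_univ _)
    rwa [Finset.card_univ] at this
  have hi : Real.log m + Real.log F.card ≤ Real.log Inc.card := by
    rw [← Real.log_mul (by positivity) (by positivity)]
    exact Real.log_le_log (by positivity) hcard
  unfold aa hh mi lam at hmain
  rw [hid] at hmain hsub
  obtain ⟨J, hJ'⟩ : ∃ J, J = H p (fun z => (z.2, cell A D z.2 z.1)) := ⟨_, rfl⟩
  obtain ⟨a, ha'⟩ : ∃ a, a = H p Prod.fst := ⟨_, rfl⟩
  obtain ⟨s, hs'⟩ : ∃ s, s = H p (Prod.snd : Ω × Fin n → Fin n) := ⟨_, rfl⟩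
  obtain ⟨i, hi'⟩ : ∃ i, i = Real.log Inc.card := ⟨_, rfl⟩
  obtain ⟨f, hf'⟩ : ∃ f, f = Real.log F.card := ⟨_, rfl⟩
  obtain ⟨LM, hLM⟩ : ∃ LM, LM = Real.log (Fintype.card Ω) := ⟨_, rfl⟩
  obtain ⟨Lm, hLm⟩ : ∃ Lm, Lm = Real.log m := ⟨_, rfl⟩
  obtain ⟨Ln, hLn⟩ : ∃ Ln, Ln = Real.log n := ⟨_, rfl⟩
  rw [← hJ', ← ha', ← hs', ← hi', ← hLn] at hmain
  rw [← ha', ← hs', ← hi'] at hsub
  rw [← hJ', ← hf'] at hJ
  rw [← ha', ← hLM] at hh1
  rw [← hLm, ← hf', ← hi'] at hi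
  have hd1 : (1 : ℝ) ≤ d := by exact_mod_cast hd
  have hfin : d * f ≤ d * Ln - LM + (d + c) * (LM - Lm) + (ε * d * Ln + C0) := by
    have e1 : 0 ≤ ((d : ℝ) + c) * (i - (Lm + f)) :=
      mul_nonneg (by linarith) (by linarith)
    have e2 : 0 ≤ ((d : ℝ) + c - 1) * (LM - a) :=
      mul_nonneg (by linarith) (by linarith)
    have e3 : 0 ≤ c * (f - J) := mul_nonneg (by linarith) (by linarith)
    have e4 : 0 ≤ (c - 1) * (a + s - i) := mul_nonneg (by linarith) (by linarith)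
    nlinarith
  have hfin2 : f ≤ C0 / d + ε * Ln + Ln + (-(1 : ℝ) / d) * LM + (1 + c / d) * (LM - Lm) := by
    have e1 : C0 / d + ε * Ln + Ln + (-(1 : ℝ) / d) * LM + (1 + c / d) * (LM - Lm) =
        (d * Ln - LM + (d + c) * (LM - Lm) + (ε * d * Ln + C0)) / d := by
      field_simp
      ring
    rw [e1, le_div_iff₀ hdp]
    linarith
  have hM0 : (0 : ℝ) < (Fintype.card Ω : ℝ) := by linarith
  have hm0 : 0 < m := by linarith
  have hn0 : (0 : ℝ) < n := by linarith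
  calc (F.card : ℝ) = Real.exp f := by rw [hf', Real.exp_log hFc]
    _ ≤ Real.exp (C0 / d + ε * Ln + Ln + (-(1 : ℝ) / d) * LM + (1 + c / d) * (LM - Lm)) :=
        Real.exp_le_exp.2 hfin2
    _ = Real.exp (C0 / d) * (n : ℝ) ^ ε * n * (Fintype.card Ω : ℝ) ^ (-(1 : ℝ) / d) *
        ((Fintype.card Ω : ℝ) / m) ^ (1 + c / (d : ℝ)) := by
        rw [Real.exp_add, Real.exp_add, Real.exp_add, Real.exp_add, hLn, Real.exp_log hn0,
          Real.rpow_def_of_pos hM0, Real.rpow_def_of_pos (div_pos hM0 hm0),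
          Real.rpow_def_of_pos hn0,
          Real.log_div hM0.ne' hm0.ne', ← hLM, ← hLm, mul_comm LM, mul_comm (LM - Lm),
          mul_comm ε]

/-- The number of dyadic levels. -/
theorem lev_count (d : ℕ) {ε : ℝ} (hε : 0 < ε) : ∃ C : ℝ, 0 ≤ C ∧
    ∀ (n : ℕ) (Ω : Type) [Fintype Ω] [Nonempty Ω] (D : Ω → Fin d → ℝ), IsFam n D →
      ((Nat.log 2 (Fintype.card Ω) : ℕ) : ℝ) + 1 ≤ C * (n : ℝ) ^ ε := by
  refine ⟨2 * d * (1 + 1 / ε) + 1, by positivity, ?_⟩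
  intro n Ω _ _ D hfam
  have hn : (1 : ℝ) ≤ n := by exact_mod_cast hfam.pos
  have hM : (1 : ℝ) ≤ (Fintype.card Ω : ℝ) := by exact_mod_cast Fintype.card_pos
  have h1 := Pool.Agent.W975.HD.log_all D hfam Finset.univ (le_refl (1 + Real.log n))
  rw [Finset.card_univ] at h1
  have h2 : ((Nat.log 2 (Fintype.card Ω) : ℕ) : ℝ) * Real.log 2 ≤ Real.log (Fintype.card Ω) := by
    rw [← Real.log_pow]
    apply Real.log_le_log (by positivity)
    have : 2 ^ Nat.log 2 (Fintype.card Ω) ≤ Fintype.card Ω :=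
      Nat.pow_log_le_self 2 Fintype.card_ne_zero
    exact_mod_cast this
  have h3 : Real.log n ≤ (n : ℝ) ^ ε / ε := Real.log_le_rpow_div (by linarith) hε
  have h4 : (1 : ℝ) ≤ (n : ℝ) ^ ε := Real.one_le_rpow hn hε.le
  have h5 : (1 : ℝ) / 2 ≤ Real.log 2 := by
    have := Real.log_two_gt_d9
    linarith
  have h6 : 0 ≤ ((Nat.log 2 (Fintype.card Ω) : ℕ) : ℝ) := Nat.cast_nonneg _
  have h7 : ((Nat.log 2 (Fintype.card Ω) : ℕ) : ℝ) ≤ 2 * (d * (1 + Real.log n)) := by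
    nlinarith
  have h8 : (d : ℝ) * (1 + Real.log n) ≤ d * ((n : ℝ) ^ ε + (n : ℝ) ^ ε / ε) := by
    gcongr
  calc ((Nat.log 2 (Fintype.card Ω) : ℕ) : ℝ) + 1
      ≤ 2 * (d * ((n : ℝ) ^ ε + (n : ℝ) ^ ε / ε)) + (n : ℝ) ^ ε := by linarith
    _ = (2 * d * (1 + 1 / ε) + 1) * (n : ℝ) ^ ε := by ring

theorem momE {d : ℕ} (hd : 1 ≤ d) {c : ℝ} (hc : 0 < c) (h : LevE d c) :
    MomE d (1 + c / (d : ℝ)) := by
  intro ε hε
  have hdp : (0 : ℝ) < d := by
    have : 0 < d := by omega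
    exact_mod_cast this
  obtain ⟨C0, hC0, hL⟩ := h (ε / 2) (by positivity)
  obtain ⟨C1, hC1, hN⟩ := lev_count d (ε := ε / 2) (by positivity)
  obtain ⟨q, hq⟩ : ∃ q : ℝ, q = 1 + c / (d : ℝ) := ⟨_, rfl⟩
  have hq0 : 0 < q := by
    have : (0 : ℝ) < c / (d : ℝ) := div_pos hc hdp
    linarith
  rw [← hq]
  refine ⟨C0 * 2 ^ q * C1, by positivity, ?_⟩
  intro n Ω _ _ A D hfam F
  have hn : (1 : ℝ) ≤ n := by exact_mod_cast hfam.pos
  have hn0 : (0 : ℝ) < n := by linarith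
  have hM : (1 : ℝ) ≤ (Fintype.card Ω : ℝ) := by exact_mod_cast Fintype.card_pos
  have hM0 : (0 : ℝ) < (Fintype.card Ω : ℝ) := by linarith
  obtain ⟨μ, hμ⟩ : ∃ μ : Fin n × (Fin d → ℤ) → ℕ,
    μ = fun x => Pool.Agent.W46.HM.mult A D x.1 x.2 := ⟨_, rfl⟩
  obtain ⟨K, hK⟩ : ∃ K, K = Nat.log 2 (Fintype.card Ω) := ⟨_, rfl⟩
  have hμM : ∀ x, μ x ≤ Fintype.card Ω := by
    intro x
    rw [hμ]
    exact Finset.card_le_univ _
  obtain ⟨F', hF'⟩ : ∃ F', F' = F.filter fun x => 1 ≤ μ x := ⟨_, rfl⟩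
  have h1 : ∑ x ∈ F, ((Pool.Agent.W46.HM.mult A D x.1 x.2 : ℕ) : ℝ) ^ q =
      ∑ x ∈ F', ((μ x : ℕ) : ℝ) ^ q := by
    rw [hF', Finset.sum_filter]
    refine Finset.sum_congr rfl fun x _ => ?_
    split_ifs with hx
    · rw [hμ]
    · have : μ x = 0 := by omega
      have h2 : Pool.Agent.W46.HM.mult A D x.1 x.2 = μ x := by rw [hμ]
      rw [h2, this, Nat.cast_zero, Real.zero_rpow hq0.ne']
  have h2 : ∀ x ∈ F', ((μ x : ℕ) : ℝ) ^ q ≤ 2 ^ q * ((2 : ℝ) ^ q) ^ (Nat.log 2 (μ x)) := by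
    intro x hx
    have h3 : μ x < 2 ^ (Nat.log 2 (μ x) + 1) := Nat.lt_pow_succ_log_self (by norm_num) _
    have h4 : ((μ x : ℕ) : ℝ) ≤ 2 ^ (Nat.log 2 (μ x) + 1) := by exact_mod_cast h3.le
    calc ((μ x : ℕ) : ℝ) ^ q ≤ ((2 : ℝ) ^ (Nat.log 2 (μ x) + 1)) ^ q :=
          Real.rpow_le_rpow (by positivity) h4 hq0.le
      _ = 2 ^ q * ((2 : ℝ) ^ q) ^ (Nat.log 2 (μ x)) := by
          rw [pow_succ, mul_comm, Real.mul_rpow (by positivity) (by positivity),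
            ← Real.rpow_natCast, ← Real.rpow_natCast, ← Real.rpow_mul (by norm_num),
            ← Real.rpow_mul (by norm_num), mul_comm (Nat.log 2 (μ x) : ℝ) q]
  have h3 : ∀ x ∈ F', Nat.log 2 (μ x) ∈ Finset.range (K + 1) := by
    intro x _
    rw [Finset.mem_range, hK]
    exact Nat.lt_succ_of_le (Nat.log_mono_right (hμM x))
  have h4 : ∀ k ∈ Finset.range (K + 1),
      ((F'.filter fun x => Nat.log 2 (μ x) = k).card : ℝ) ≤
        C0 * (n : ℝ) ^ (ε / 2) * n * (Fintype.card Ω : ℝ) ^ (-(1 : ℝ) / d) *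
          ((Fintype.card Ω : ℝ) / 2 ^ k) ^ q := by
    intro k _
    rw [hq]
    refine hL n Ω A D hfam _ (2 ^ k) (one_le_pow₀ (by norm_num)) ?_
    intro x hx
    rw [Finset.mem_filter, hF', Finset.mem_filter] at hx
    have h5 : 2 ^ k ≤ μ x := by
      rw [← hx.2]
      exact Nat.pow_log_le_self 2 (by omega)
    have h6 : Pool.Agent.W46.HM.mult A D x.1 x.2 = μ x := by rw [hμ]
    rw [h6]
    exact_mod_cast h5
  have hcnt := hN n Ω D hfam
  rw [← hK] at hcnt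
  rw [h1]
  calc ∑ x ∈ F', ((μ x : ℕ) : ℝ) ^ q
      ≤ ∑ x ∈ F', 2 ^ q * ((2 : ℝ) ^ q) ^ (Nat.log 2 (μ x)) := Finset.sum_le_sum h2
    _ = ∑ k ∈ Finset.range (K + 1), ∑ x ∈ F' with Nat.log 2 (μ x) = k,
          2 ^ q * ((2 : ℝ) ^ q) ^ (Nat.log 2 (μ x)) :=
        (Finset.sum_fiberwise_of_maps_to h3 _).symm
    _ = ∑ k ∈ Finset.range (K + 1), ((F'.filter fun x => Nat.log 2 (μ x) = k).card : ℝ) *
          (2 ^ q * ((2 : ℝ) ^ q) ^ k) := by
        refine Finset.sum_congr rfl fun k _ => ?_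
        rw [← nsmul_eq_mul, ← Finset.sum_const]
        refine Finset.sum_congr rfl fun x hx => ?_
        rw [(Finset.mem_filter.1 hx).2]
    _ ≤ ∑ k ∈ Finset.range (K + 1), (C0 * (n : ℝ) ^ (ε / 2) * n *
          (Fintype.card Ω : ℝ) ^ (-(1 : ℝ) / d) *
          ((Fintype.card Ω : ℝ) / 2 ^ k) ^ q) * (2 ^ q * ((2 : ℝ) ^ q) ^ k) := by
        refine Finset.sum_le_sum fun k hk => ?_
        exact mul_le_mul_of_nonneg_right (h4 k hk) (by positivity)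
    _ = ∑ k ∈ Finset.range (K + 1), (C0 * (n : ℝ) ^ (ε / 2) * n *
          (Fintype.card Ω : ℝ) ^ (-(1 : ℝ) / d) *
          (Fintype.card Ω : ℝ) ^ q * 2 ^ q) := by
        refine Finset.sum_congr rfl fun k _ => ?_
        have e1 : ((Fintype.card Ω : ℝ) / 2 ^ k) ^ q * ((2 : ℝ) ^ q) ^ k =
            (Fintype.card Ω : ℝ) ^ q := by
          have e2 : ((2 : ℝ) ^ q) ^ k = ((2 : ℝ) ^ k) ^ q := by
            rw [← Real.rpow_natCast, ← Real.rpow_natCast, ← Real.rpow_mul (by norm_num),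
              ← Real.rpow_mul (by norm_num), mul_comm]
          rw [e2, Real.div_rpow (by positivity) (by positivity)]
          have e3 : (0 : ℝ) < ((2 : ℝ) ^ k) ^ q := by positivity
          field_simp
        calc (C0 * (n : ℝ) ^ (ε / 2) * n * (Fintype.card Ω : ℝ) ^ (-(1 : ℝ) / d) *
              ((Fintype.card Ω : ℝ) / 2 ^ k) ^ q) * (2 ^ q * ((2 : ℝ) ^ q) ^ k)
            = C0 * (n : ℝ) ^ (ε / 2) * n * (Fintype.card Ω : ℝ) ^ (-(1 : ℝ) / d) * 2 ^ q *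
              (((Fintype.card Ω : ℝ) / 2 ^ k) ^ q * ((2 : ℝ) ^ q) ^ k) := by ring
          _ = _ := by
            rw [e1]
            ring
    _ = ((K : ℝ) + 1) * (C0 * (n : ℝ) ^ (ε / 2) * n * (Fintype.card Ω : ℝ) ^ (-(1 : ℝ) / d) *
          (Fintype.card Ω : ℝ) ^ q * 2 ^ q) := by
        rw [Finset.sum_const, Finset.card_range, nsmul_eq_mul]
        push_cast
        ring
    _ ≤ (C1 * (n : ℝ) ^ (ε / 2)) * (C0 * (n : ℝ) ^ (ε / 2) * n *
          (Fintype.card Ω : ℝ) ^ (-(1 : ℝ) / d) * (Fintype.card Ω : ℝ) ^ q * 2 ^ q) :=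
        mul_le_mul_of_nonneg_right hcnt (by positivity)
    _ = C0 * 2 ^ q * C1 * ((n : ℝ) ^ (ε / 2) * (n : ℝ) ^ (ε / 2)) * n *
          ((Fintype.card Ω : ℝ) ^ (-(1 : ℝ) / d) * (Fintype.card Ω : ℝ) ^ q) := by ring
    _ = C0 * 2 ^ q * C1 * (n : ℝ) ^ ε * n * (Fintype.card Ω : ℝ) ^ (q - 1 / (d : ℝ)) := by
        rw [← Real.rpow_add hM0, ← Real.rpow_add hn0]
        congr 2
        · congr 2
          ring_nf
        · ring

end Pool.Agent.Y574.HK
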