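import Pool.Agent.W46.HM.Stm
import Pool.Agent.W22.HM.WIN
import Pool.Agent.W46.HM.Allw

/-!
# From the moments of the multiplicity of the cells to tubes, for one scale `N`
-/

set_option autoImplicit false

open Finset MeasureTheory
open scoped Classical ENNReal

namespace Pool.Agent.Y574.HK
open Pool.Agent.W904.AK Pool.Agent.W46.HD Pool.Agent.W46.HM

/-- The moment estimate at the scale `N` with the constant `C0`. -/
def MomN (d : ℕ) (q : ℝ) (N : ℕ) (C0 : ℝ) : Prop :=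
  ∀ (Ω : Type) [Fintype Ω] [Nonempty Ω] (A D : Ω → Fin d → ℝ), IsFam N D →
    ∀ F : Finset (Fin N × (Fin d → ℤ)),
    ∑ x ∈ F, ((Pool.Agent.W46.HM.mult A D x.1 x.2 : ℕ) : ℝ) ^ q ≤
      C0 * N * (Fintype.card Ω : ℝ) ^ (q - 1 / (d : ℝ))

/-- One window of heights. -/
def WinN (d : ℕ) (q : ℝ) : Prop := ∀ R : ℝ, 0 < R →
    ∃ C : ℝ, 0 ≤ C ∧ ∀ (N : ℕ) (C0 : ℝ), 1 ≤ N → 0 ≤ C0 → MomN d q N C0 →
    ∀ (Ω : Type) [Fintype Ω] (P v : Ω → Fin d → ℝ) (t0 r : ℝ),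
    0 ≤ r → N * r ≤ R → (∀ ω k, |v ω k| ≤ 1) →
    (∀ ω ω', (∀ k, ⌊(N : ℝ) * ((v ω k + 1) / 2)⌋ = ⌊(N : ℝ) * ((v ω' k + 1) / 2)⌋) → ω = ω') →
    ∫⁻ z : ℝ × (Fin d → ℝ) in Set.Ico t0 (t0 + 1) ×ˢ (Set.univ : Set (Fin d → ℝ)),
      (∑ ω, (if (∀ k, |z.2 k - (P ω k + z.1 * v ω k)| ≤ r) then (1 : ℝ≥0∞) else 0)) ^ q ≤
    ENNReal.ofReal (C * C0 * (N : ℝ) ^ (-(d : ℝ)) * (Fintype.card Ω : ℝ) ^ (q - 1 / (d : ℝ)))

/-- All heights, tubes of length `2 L` at arbitrary heights. -/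
def AllwN (d : ℕ) (q : ℝ) : Prop := ∀ L R : ℝ, 0 < L → 0 < R →
    ∃ C : ℝ, 0 ≤ C ∧ ∀ (N : ℕ) (C0 : ℝ), 1 ≤ N → 0 ≤ C0 → MomN d q N C0 →
    ∀ (Ω : Type) [Fintype Ω] (P v : Ω → Fin d → ℝ) (b : Ω → ℝ) (r : ℝ),
    0 ≤ r → N * r ≤ R → (∀ ω k, |v ω k| ≤ 1) →
    (∀ ω ω', (∀ k, ⌊(N : ℝ) * ((v ω k + 1) / 2)⌋ = ⌊(N : ℝ) * ((v ω' k + 1) / 2)⌋) → ω = ω') →
    ∫⁻ z : ℝ × (Fin d → ℝ), (∑ ω, (if (|z.1 - b ω| ≤ L ∧
        ∀ k, |z.2 k - (P ω k + z.1 * v ω k)| ≤ r) then (1 : ℝ≥0∞) else 0)) ^ q ≤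
    ENNReal.ofReal (C * C0 * (N : ℝ) ^ (-(d : ℝ)) * (Fintype.card Ω : ℝ) ^ (q - 1 / (d : ℝ)))

/-- One window of heights, for one `N`. -/
theorem winN {d : ℕ} (hd : 1 ≤ d) {q : ℝ} (hq1 : 1 < q) : WinN d q := by
  intro R hR
  have hd0 : (0 : ℝ) < d := by
    have : (1 : ℝ) ≤ d := by exact_mod_cast hd
    linarith
  have hq0 : 0 < q := by linarith
  have hqd : 0 < q - 1 / (d : ℝ) := by
    have h1 : 1 / (d : ℝ) ≤ 1 := by
      rw [div_le_one hd0]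
      exact_mod_cast hd
    linarith
  set K : ℕ := ⌈R + 3⌉₊ with hKdef
  have hK : R + 3 ≤ K := Nat.le_ceil _
  set O : Finset (Fin d → ℤ) := Pool.Agent.W22.HM.Off d K with hO
  refine ⟨(O.card : ℝ) ^ (q + 1) * 2 ^ d, by positivity, ?_⟩
  intro N C0 hN hC0 hM Ω _ P v t0 r hr hNr hv hinj
  have hN0 : (0 : ℝ) < N := by exact_mod_cast hN
  rcases isEmpty_or_nonempty Ω with hE | hE
  · refine le_trans (le_of_eq ?_) (zero_le)
    simp only [Finset.univ_eq_empty, Finset.sum_empty, ENNReal.zero_rpow_of_pos hq0]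
    exact lintegral_zero
  set D : Ω → Fin d → ℝ := fun ω k => (v ω k + 1) / 2 with hD
  set A : Ω → Fin d → ℝ := fun ω k => (N : ℝ) * (P ω k + t0 * v ω k) / 2 with hA
  have hfam : IsFam N D := by
    refine ⟨hN, fun ω i => ?_, fun ω i => ?_, hinj⟩
    · have := abs_le.1 (hv ω i)
      simp only [hD]
      linarith
    · have := abs_le.1 (hv ω i)
      simp only [hD]
      linarith
  set F : Finset (Fin N × (Fin d → ℤ)) :=
    Finset.univ.image fun x : Fin N × Ω => (x.1, cell A D x.1 x.2) with hF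
  have hMF := hM Ω A D hfam F
  -- the pointwise bound
  have hpt : ∀ z ∈ Set.Ico t0 (t0 + 1) ×ˢ (Set.univ : Set (Fin d → ℝ)),
      (∑ ω, (if (∀ k, |z.2 k - (P ω k + z.1 * v ω k)| ≤ r) then (1 : ℝ≥0∞) else 0)) ^ q ≤
      ∑ o ∈ O, ∑ x ∈ F, ((O.card : ℝ≥0∞) ^ q * ((Pool.Agent.W46.HM.mult A D x.1 x.2 : ℕ) : ℝ≥0∞) ^ q) *
        (Pool.Agent.W22.HM.Bx N t0 x.1 (x.2 - o)).indicator 1 z := by
    rintro ⟨t, y⟩ hz
    have ht : t0 ≤ t ∧ t < t0 + 1 := by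
      have := hz.1
      exact this
    have hnn : 0 ≤ (N : ℝ) * (t - t0) := mul_nonneg hN0.le (by linarith [ht.1])
    have hlt : ⌊(N : ℝ) * (t - t0)⌋₊ < N := by
      rw [Nat.floor_lt hnn]
      have : t - t0 < 1 := by linarith [ht.2]
      nlinarith
    set j : Fin N := ⟨⌊(N : ℝ) * (t - t0)⌋₊, hlt⟩ with hj
    have hj1 : ((j : ℕ) : ℝ) ≤ N * (t - t0) := Nat.floor_le hnn
    have hj2 : N * (t - t0) < ((j : ℕ) : ℝ) + 1 := Nat.lt_floor_add_one _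
    set c : Fin d → ℤ := fun k => ⌊(N : ℝ) * (y k + (t - t0)) / 2⌋ with hc
    have hzB : (t, y) ∈ Pool.Agent.W22.HM.Bx N t0 j c := by
      refine ⟨⟨?_, ?_⟩, fun k => ⟨?_, ?_⟩⟩
      · have : ((j : ℕ) : ℝ) / N ≤ t - t0 := by
          rw [div_le_iff₀ hN0]; linarith
        simp only
        linarith
      · have : t - t0 < (((j : ℕ) : ℝ) + 1) / N := by
          rw [lt_div_iff₀ hN0]; linarith
        simp only
        linarith
      · have h1 : (c k : ℝ) ≤ (N : ℝ) * (y k + (t - t0)) / 2 := Int.floor_le _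
        have h2 : 2 * (c k : ℝ) / N ≤ y k + (t - t0) := by
          rw [div_le_iff₀ hN0]; linarith
        simp only
        linarith
      · have h1 : (N : ℝ) * (y k + (t - t0)) / 2 < (c k : ℝ) + 1 := Int.lt_floor_add_one _
        have h2 : y k + (t - t0) < 2 * ((c k : ℝ) + 1) / N := by
          rw [lt_div_iff₀ hN0]; linarith
        simp only
        linarith
    have h1 : (∑ ω, (if (∀ k, |y k - (P ω k + t * v ω k)| ≤ r) then (1 : ℝ≥0∞) else 0)) ≤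
        ∑ o ∈ O, ((Pool.Agent.W46.HM.mult A D j (c + o) : ℕ) : ℝ≥0∞) := by
      have h2 : ∀ ω, (if (∀ k, |y k - (P ω k + t * v ω k)| ≤ r) then (1 : ℝ≥0∞) else 0) ≤
          ∑ o ∈ O, if cell A D j ω = c + o then (1 : ℝ≥0∞) else 0 := by
        intro ω
        split_ifs with hω
        · have h3 : cell A D j ω - c ∈ O := by
            rw [hO, Pool.Agent.W22.HM.Off, Fintype.mem_piFinset]
            intro k
            rw [Finset.mem_Icc, ← abs_le]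
            exact Pool.Agent.W22.HM.cell_near hN hNr hK (hv ω k) hj1 hj2 (hω k)
          refine le_trans ?_ (Finset.single_le_sum
            (f := fun o => if cell A D j ω = c + o then (1 : ℝ≥0∞) else 0)
            (fun _ _ => zero_le) h3)
          simp
        · exact zero_le
      refine (Finset.sum_le_sum fun ω _ => h2 ω).trans (le_of_eq ?_)
      rw [Finset.sum_comm]
      refine Finset.sum_congr rfl fun o _ => ?_
      rw [Finset.sum_boole]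
      rfl
    have h3 : ∀ o ∈ O, ((Pool.Agent.W46.HM.mult A D j (c + o) : ℕ) : ℝ≥0∞) ^ q ≤
        ∑ x ∈ F, ((Pool.Agent.W46.HM.mult A D x.1 x.2 : ℕ) : ℝ≥0∞) ^ q *
          (Pool.Agent.W22.HM.Bx N t0 x.1 (x.2 - o)).indicator 1 (t, y) := by
      intro o _
      rcases Nat.eq_zero_or_pos (Pool.Agent.W46.HM.mult A D j (c + o)) with h0 | h0
      · rw [h0, Nat.cast_zero, ENNReal.zero_rpow_of_pos hq0]
        exact zero_le
      · have h4 : (j, c + o) ∈ F := by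
          unfold Pool.Agent.W46.HM.mult at h0
          rw [gt_iff_lt, Finset.card_pos] at h0
          obtain ⟨ω, hω⟩ := h0
          rw [Finset.mem_filter] at hω
          rw [hF, Finset.mem_image]
          exact ⟨(j, ω), Finset.mem_univ _, by rw [← hω.2]⟩
        refine le_trans ?_ (Finset.single_le_sum
          (f := fun x : Fin N × (Fin d → ℤ) => ((Pool.Agent.W46.HM.mult A D x.1 x.2 : ℕ) : ℝ≥0∞) ^ q *
            (Pool.Agent.W22.HM.Bx N t0 x.1 (x.2 - o)).indicator 1 (t, y)) (fun _ _ => zero_le) h4)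
        simp only [add_sub_cancel_right]
        rw [Set.indicator_of_mem hzB, Pi.one_apply, mul_one]
    calc (∑ ω, (if (∀ k, |y k - (P ω k + t * v ω k)| ≤ r) then (1 : ℝ≥0∞) else 0)) ^ q
        ≤ (∑ o ∈ O, ((Pool.Agent.W46.HM.mult A D j (c + o) : ℕ) : ℝ≥0∞)) ^ q := ENNReal.rpow_le_rpow h1 hq0.le
      _ ≤ (O.card : ℝ≥0∞) ^ q * ∑ o ∈ O, ((Pool.Agent.W46.HM.mult A D j (c + o) : ℕ) : ℝ≥0∞) ^ q :=
          Pool.Agent.W22.HM.pow_sum_le O _ hq0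
      _ ≤ (O.card : ℝ≥0∞) ^ q * ∑ o ∈ O, ∑ x ∈ F, ((Pool.Agent.W46.HM.mult A D x.1 x.2 : ℕ) : ℝ≥0∞) ^ q *
          (Pool.Agent.W22.HM.Bx N t0 x.1 (x.2 - o)).indicator 1 (t, y) := by
          gcongr with o ho
          exact h3 o ho
      _ = _ := by
          rw [Finset.mul_sum]
          refine Finset.sum_congr rfl fun o _ => ?_
          rw [Finset.mul_sum]
          refine Finset.sum_congr rfl fun x _ => ?_
          rw [mul_assoc]
  have hWm : MeasurableSet (Set.Ico t0 (t0 + 1) ×ˢ (Set.univ : Set (Fin d → ℝ))) :=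
    measurableSet_Ico.prod MeasurableSet.univ
  refine (setLIntegral_mono' hWm hpt).trans ?_
  refine (setLIntegral_le_lintegral _ _).trans ?_
  have hmeas : ∀ (o : Fin d → ℤ) (x : Fin N × (Fin d → ℤ)), Measurable fun z =>
      ((O.card : ℝ≥0∞) ^ q * ((Pool.Agent.W46.HM.mult A D x.1 x.2 : ℕ) : ℝ≥0∞) ^ q) *
        (Pool.Agent.W22.HM.Bx N t0 x.1 (x.2 - o)).indicator (1 : ℝ × (Fin d → ℝ) → ℝ≥0∞) z := by
    intro o x
    exact (measurable_one.indicator (Pool.Agent.W22.HM.Bx_meas _ _ _ _)).const_mul _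
  rw [lintegral_finsetSum _ fun o _ => Finset.measurable_sum _ fun x _ => hmeas o x]
  have hint : ∀ o ∈ O, ∫⁻ z, ∑ x ∈ F, ((O.card : ℝ≥0∞) ^ q *
      ((Pool.Agent.W46.HM.mult A D x.1 x.2 : ℕ) : ℝ≥0∞) ^ q) * (Pool.Agent.W22.HM.Bx N t0 x.1 (x.2 - o)).indicator 1 z ≤
      (O.card : ℝ≥0∞) ^ q * ENNReal.ofReal (2 ^ d * (N : ℝ) ^ (-((d : ℝ) + 1))) *
        ∑ x ∈ F, ((Pool.Agent.W46.HM.mult A D x.1 x.2 : ℕ) : ℝ≥0∞) ^ q := by
    intro o _
    rw [lintegral_finsetSum _ fun x _ => hmeas o x, Finset.mul_sum]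
    refine Finset.sum_le_sum fun x _ => ?_
    rw [lintegral_const_mul _ (measurable_one.indicator (Pool.Agent.W22.HM.Bx_meas _ _ _ _)),
      lintegral_indicator_one (Pool.Agent.W22.HM.Bx_meas _ _ _ _)]
    calc (O.card : ℝ≥0∞) ^ q * ((Pool.Agent.W46.HM.mult A D x.1 x.2 : ℕ) : ℝ≥0∞) ^ q *
          volume (Pool.Agent.W22.HM.Bx N t0 x.1 (x.2 - o))
        ≤ (O.card : ℝ≥0∞) ^ q * ((Pool.Agent.W46.HM.mult A D x.1 x.2 : ℕ) : ℝ≥0∞) ^ q *
          ENNReal.ofReal (2 ^ d * (N : ℝ) ^ (-((d : ℝ) + 1))) := by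
          gcongr
          exact Pool.Agent.W22.HM.Bx_vol hN _ _ _
      _ = _ := by ring
  refine (Finset.sum_le_sum hint).trans ?_
  rw [Finset.sum_const, nsmul_eq_mul]
  have hsum : ∑ x ∈ F, ((Pool.Agent.W46.HM.mult A D x.1 x.2 : ℕ) : ℝ≥0∞) ^ q =
      ENNReal.ofReal (∑ x ∈ F, ((Pool.Agent.W46.HM.mult A D x.1 x.2 : ℕ) : ℝ) ^ q) := by
    rw [ENNReal.ofReal_sum_of_nonneg fun x _ => by positivity]
    refine Finset.sum_congr rfl fun x _ => ?_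
    rw [← ENNReal.ofReal_rpow_of_nonneg (Nat.cast_nonneg _) hq0.le, ENNReal.ofReal_natCast]
  have hOc : (O.card : ℝ≥0∞) ^ q = ENNReal.ofReal ((O.card : ℝ) ^ q) := by
    rw [← ENNReal.ofReal_rpow_of_nonneg (Nat.cast_nonneg _) hq0.le, ENNReal.ofReal_natCast]
  rw [hsum, hOc, ← ENNReal.ofReal_natCast, ← ENNReal.ofReal_mul (by positivity),
    ← ENNReal.ofReal_mul (by positivity), ← ENNReal.ofReal_mul (by positivity)]
  refine ENNReal.ofReal_le_ofReal ?_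
  have hNpow : (N : ℝ) ^ (-((d : ℝ) + 1)) * N = (N : ℝ) ^ (-(d : ℝ)) := by
    have : (N : ℝ) ^ (-(d : ℝ)) = (N : ℝ) ^ (-((d : ℝ) + 1) + 1) := by
      congr 1
      ring
    rw [this, Real.rpow_add hN0, Real.rpow_one]
  calc (O.card : ℝ) * ((O.card : ℝ) ^ q * (2 ^ d * (N : ℝ) ^ (-((d : ℝ) + 1))) *
        ∑ x ∈ F, ((Pool.Agent.W46.HM.mult A D x.1 x.2 : ℕ) : ℝ) ^ q)
      ≤ (O.card : ℝ) * ((O.card : ℝ) ^ q * (2 ^ d * (N : ℝ) ^ (-((d : ℝ) + 1))) *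
        (C0 * N * (Fintype.card Ω : ℝ) ^ (q - 1 / (d : ℝ)))) := by
        gcongr
    _ = ((O.card : ℝ) ^ q * O.card) * 2 ^ d * C0 * ((N : ℝ) ^ (-((d : ℝ) + 1)) * N) *
        (Fintype.card Ω : ℝ) ^ (q - 1 / (d : ℝ)) := by ring
    _ = _ := by
        rw [hNpow]
        congr 4
        rcases Nat.eq_zero_or_pos O.card with h0 | h0
        · rw [h0, Nat.cast_zero, mul_zero, Real.zero_rpow (by linarith)]
        · rw [Real.rpow_add (by exact_mod_cast h0), Real.rpow_one]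

/-- All heights, tubes of length `2 L`, for one `N`. -/
theorem allwN {d : ℕ} (hd : 1 ≤ d) {q : ℝ} (hq : 1 + 1 / (d : ℝ) ≤ q) (h : WinN d q) :
    AllwN d q := by
  intro L R hL hR
  obtain ⟨C', hC', hW'⟩ := h R hR
  have hd0 : (0:ℝ) < d := by
    have : (1:ℝ) ≤ d := by exact_mod_cast hd
    linarith
  have hs : 1 ≤ q - 1/(d:ℝ) := by linarith
  have hq0 : 0 < q := by
    have : (0:ℝ) < 1 / d := by positivity
    linarith
  set k0 : ℕ := ⌈L⌉₊ + 2 with hk0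
  have hk0L : L + 2 ≤ (k0 : ℝ) := by
    rw [hk0]
    push_cast
    linarith [Nat.le_ceil L]
  refine ⟨(2 * k0 + 1) * C', by positivity, ?_⟩
  intro N C0 hN hC0 hM Ω _ P v b r hr hNr hv hsep
  have hW := hW' N C0 hN hC0 hM
  obtain ⟨C, hCdef⟩ : ∃ C, C = C' * C0 := ⟨_, rfl⟩
  have hC : 0 ≤ C := by
    rw [hCdef]
    positivity
  rw [← hCdef] at hW
  set s : ℝ := q - 1/(d:ℝ) with hsdef
  set K : ℝ := (Fintype.card Ω : ℝ) with hK
  have hK0 : 0 ≤ K := by rw [hK]; positivity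
  have hN0 : (0:ℝ) < N := by exact_mod_cast hN
  have hA0 : 0 ≤ C * (N:ℝ)^(-(d:ℝ)) := by positivity
  have hwin : ∀ w : ℤ, ∫⁻ z : ℝ × (Fin d → ℝ) in
      Set.Ico (w:ℝ) (w+1) ×ˢ (Set.univ : Set (Fin d → ℝ)),
      (∑ ω, (if (|z.1 - b ω| ≤ L ∧ ∀ k, |z.2 k - (P ω k + z.1 * v ω k)| ≤ r)
        then (1:ℝ≥0∞) else 0)) ^ q ≤
      ENNReal.ofReal (C * (N:ℝ)^(-(d:ℝ)) * K^(s-1)) *
        ∑ ω : Ω, (if |⌊b ω⌋ - w| ≤ (k0 : ℤ) then (1:ℝ≥0∞) else 0) := by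
    intro w
    have h1 := hW {ω : Ω // |⌊b ω⌋ - w| ≤ (k0 : ℤ)} (fun ω => P ω.1) (fun ω => v ω.1) (w:ℝ) r hr hNr
      (fun ω k => hv ω.1 k) (fun ω ω' hh => Subtype.ext (hsep ω.1 ω'.1 hh))
    have hcard : (Fintype.card {ω : Ω // |⌊b ω⌋ - w| ≤ (k0 : ℤ)} : ℝ) =
        ((Finset.univ.filter (fun ω : Ω => |⌊b ω⌋ - w| ≤ (k0 : ℤ))).card : ℝ) := by
      rw [Fintype.card_subtype]
    have h2 : ∫⁻ z : ℝ × (Fin d → ℝ) in
      Set.Ico (w:ℝ) (w+1) ×ˢ (Set.univ : Set (Fin d → ℝ)),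
      (∑ ω, (if (|z.1 - b ω| ≤ L ∧ ∀ k, |z.2 k - (P ω k + z.1 * v ω k)| ≤ r)
        then (1:ℝ≥0∞) else 0)) ^ q ≤
      ∫⁻ z : ℝ × (Fin d → ℝ) in
      Set.Ico (w:ℝ) (w+1) ×ˢ (Set.univ : Set (Fin d → ℝ)),
      (∑ ω : {ω : Ω // |⌊b ω⌋ - w| ≤ (k0 : ℤ)}, (if (∀ k, |z.2 k - (P ω.1 k + z.1 * v ω.1 k)| ≤ r)
        then (1:ℝ≥0∞) else 0)) ^ q := by
      apply setLIntegral_mono'
      · exact measurableSet_Ico.prod MeasurableSet.univ
      · intro z hz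
        have hz1 : (w:ℝ) ≤ z.1 ∧ z.1 < w + 1 := by
          have := hz.1
          exact ⟨this.1, this.2⟩
        apply ENNReal.rpow_le_rpow _ hq0.le
        have e1 : ∑ ω : {ω : Ω // |⌊b ω⌋ - w| ≤ (k0 : ℤ)},
            (if (∀ k, |z.2 k - (P ω.1 k + z.1 * v ω.1 k)| ≤ r) then (1:ℝ≥0∞) else 0) =
            ∑ ω ∈ Finset.univ.filter (fun ω : Ω => |⌊b ω⌋ - w| ≤ (k0 : ℤ)),
            (if (∀ k, |z.2 k - (P ω k + z.1 * v ω k)| ≤ r) then (1:ℝ≥0∞) else 0) := by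
          rw [Finset.sum_subtype (Finset.univ.filter (fun ω : Ω => |⌊b ω⌋ - w| ≤ (k0 : ℤ)))
            (p := fun ω : Ω => |⌊b ω⌋ - w| ≤ (k0 : ℤ)) (fun x => by simp)]
        rw [e1, Finset.sum_filter]
        apply Finset.sum_le_sum
        intro ω _
        by_cases hc : |z.1 - b ω| ≤ L ∧ ∀ k, |z.2 k - (P ω k + z.1 * v ω k)| ≤ r
        · have hb := abs_le.1 hc.1
          have f1 := Int.floor_le (b ω)
          have f2 := Int.lt_floor_add_one (b ω)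
          have g1 : ((⌊b ω⌋ : ℤ) : ℝ) < ((w + (k0 : ℤ) : ℤ) : ℝ) := by push_cast; linarith
          have g2 : ((w - (k0 : ℤ) : ℤ) : ℝ) < ((⌊b ω⌋ : ℤ) : ℝ) := by push_cast; linarith
          have g1' : ⌊b ω⌋ < w + (k0 : ℤ) := by exact_mod_cast g1
          have g2' : w - (k0 : ℤ) < ⌊b ω⌋ := by exact_mod_cast g2
          have g3 : |⌊b ω⌋ - w| ≤ (k0 : ℤ) := abs_le.2 ⟨by linarith, by linarith⟩
          rw [if_pos hc, if_pos g3, if_pos hc.2]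
        · rw [if_neg hc]
          exact bot_le
    refine h2.trans (h1.trans ?_)
    rw [hcard]
    set c : ℕ := (Finset.univ.filter (fun ω : Ω => |⌊b ω⌋ - w| ≤ (k0 : ℤ))).card with hc
    have hcK : (c:ℝ) ≤ K := by
      rw [hK]; exact_mod_cast Finset.card_le_univ _
    have hsum : ∑ ω : Ω, (if |⌊b ω⌋ - w| ≤ (k0 : ℤ) then (1:ℝ≥0∞) else 0) = (c : ℝ≥0∞) := by
      rw [← Finset.sum_filter, Finset.sum_const, hc]
      simp
    rw [hsum]
    have hc0 : (0:ℝ) ≤ c := Nat.cast_nonneg _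
    have e2 : (c : ℝ≥0∞) = ENNReal.ofReal (c:ℝ) := by simp
    rw [e2, ← ENNReal.ofReal_mul (by positivity)]
    apply ENNReal.ofReal_le_ofReal
    have e3 : (c:ℝ)^s ≤ K^(s-1) * c := by
      rcases hc0.eq_or_lt with h0 | h0
      · rw [← h0, Real.zero_rpow (by linarith)]; positivity
      · have : (c:ℝ)^s = (c:ℝ)^(s-1) * c := by
          rw [← Real.rpow_add_one h0.ne']; ring_nf
        rw [this]
        gcongr
    calc C * (N:ℝ)^(-(d:ℝ)) * (c:ℝ)^s ≤ C * (N:ℝ)^(-(d:ℝ)) * (K^(s-1) * c) := by gcongr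
      _ = C * (N:ℝ)^(-(d:ℝ)) * K^(s-1) * c := by ring
  -- sum over the windows
  set F : ℝ × (Fin d → ℝ) → ℝ≥0∞ := fun z =>
    (∑ ω, (if (|z.1 - b ω| ≤ L ∧ ∀ k, |z.2 k - (P ω k + z.1 * v ω k)| ≤ r)
        then (1:ℝ≥0∞) else 0)) ^ q with hF
  have hU : (⋃ w : ℤ, Set.Ico (w:ℝ) (w+1) ×ˢ (Set.univ : Set (Fin d → ℝ))) = Set.univ := by
    ext z
    simp only [Set.mem_iUnion, Set.mem_prod, Set.mem_Ico, Set.mem_univ, and_true, iff_true]
    exact ⟨⌊z.1⌋, Int.floor_le _, Int.lt_floor_add_one _⟩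
  have hdis : Pairwise (Function.onFun Disjoint
      (fun w : ℤ => Set.Ico (w:ℝ) (w+1) ×ˢ (Set.univ : Set (Fin d → ℝ)))) := by
    intro w w' hww
    rw [Function.onFun, Set.disjoint_left]
    rintro z ⟨⟨h1, h2⟩, _⟩ ⟨⟨h3, h4⟩, _⟩
    apply hww
    have a1 : ((w:ℤ):ℝ) < ((w' + 1 : ℤ) : ℝ) := by push_cast; linarith
    have a2 : ((w':ℤ):ℝ) < ((w + 1 : ℤ) : ℝ) := by push_cast; linarith
    have a1' : w < w' + 1 := by exact_mod_cast a1
    have a2' : w' < w + 1 := by exact_mod_cast a2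
    omega
  have hsplit : ∫⁻ z : ℝ × (Fin d → ℝ), F z = ∑' w : ℤ, ∫⁻ z in
      Set.Ico (w:ℝ) (w+1) ×ˢ (Set.univ : Set (Fin d → ℝ)), F z := by
    rw [← lintegral_iUnion (fun w => measurableSet_Ico.prod MeasurableSet.univ) hdis, hU,
      Measure.restrict_univ]
  change ∫⁻ z : ℝ × (Fin d → ℝ), F z ≤ _
  rw [hsplit]
  refine (ENNReal.tsum_le_tsum hwin).trans ?_
  rw [ENNReal.tsum_mul_left]
  have hcount : ∑' w : ℤ, ∑ ω : Ω, (if |⌊b ω⌋ - w| ≤ (k0 : ℤ) then (1:ℝ≥0∞) else 0) ≤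
      ENNReal.ofReal ((2 * k0 + 1) * K) := by
    rw [Summable.tsum_finsetSum (fun _ _ => ENNReal.summable)]
    have : ∀ ω : Ω, ∑' w : ℤ, (if |⌊b ω⌋ - w| ≤ (k0 : ℤ) then (1:ℝ≥0∞) else 0) ≤
        ((2 * k0 + 1 : ℕ) : ℝ≥0∞) := by
      intro ω
      rw [tsum_eq_sum (s := Finset.Icc (⌊b ω⌋ - k0) (⌊b ω⌋ + k0))]
      · refine (Finset.sum_le_sum (g := fun _ => (1:ℝ≥0∞)) ?_).trans ?_
        · intro w _
          split_ifs <;> simp
        · rw [Finset.sum_const, Int.card_Icc]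
          have : (⌊b ω⌋ + (k0 : ℤ) + 1 - (⌊b ω⌋ - (k0 : ℤ))).toNat = 2 * k0 + 1 := by omega
          rw [this, nsmul_eq_mul, mul_one]
      · intro w hw
        rw [if_neg]
        intro hh
        apply hw
        rw [Finset.mem_Icc]
        have := abs_le.1 hh
        constructor <;> linarith [this.1, this.2]
    refine (Finset.sum_le_sum (fun ω _ => this ω)).trans ?_
    have e7 : ((2 : ℝ) * k0 + 1) * K = (((2 * k0 + 1) * Fintype.card Ω : ℕ) : ℝ) := by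
      rw [hK]
      push_cast
      ring
    rw [Finset.sum_const, Finset.card_univ, e7, ENNReal.ofReal_natCast, nsmul_eq_mul, mul_comm]
    push_cast
    exact le_rfl
  refine (mul_le_mul_right hcount _).trans ?_
  rw [← ENNReal.ofReal_mul (by positivity)]
  apply ENNReal.ofReal_le_ofReal
  rcases hK0.eq_or_lt with h0 | h0
  · rw [← h0]; simp only [mul_zero]; positivity
  · have : K^s = K^(s-1) * K := by
      rw [← Real.rpow_add_one h0.ne']; ring_nf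
    rw [this, hCdef]
    apply le_of_eq; ring

end Pool.Agent.Y574.HK
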