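import Pool.Agent.Y574.HK.Lev
import Pool.Agent.Y574.HK.Win
import Pool.Agent.W605.HM.TubeQ

/-!
# From the oracle with the loss `n ^ ε` to tubes (job HK-TUBE)
-/

set_option autoImplicit false

open Finset MeasureTheory
open scoped Classical ENNReal

namespace Pool.Agent.Y574.HK
open Pool.Agent.Y254HK

theorem t_tube : S_TUBE := by
  intro d c hd hc hall R hR ε hε
  have hd1 : (1 : ℝ) ≤ d := by exact_mod_cast hd
  have hd0 : (0 : ℝ) < d := by linarith
  obtain ⟨C1, hC1, hmom⟩ := momE hd (by linarith : 0 < c) (levE hd hc.le hall) ε hε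
  have hq : 1 + 1 / (d : ℝ) ≤ 1 + c / d := by
    gcongr
  have hq1 : 1 < 1 + c / (d : ℝ) := by
    have : 0 < c / (d : ℝ) := by positivity
    linarith
  obtain ⟨C2, hC2, hw⟩ := allwN hd hq (winN hd hq1) R (3 * R) (by linarith) (by linarith)
  refine ⟨C2 * (C1 * 3 ^ ε), by positivity, ?_⟩
  intro δ hδ hδ1 ι _ b P v hv hs
  set N : ℕ := ⌈2 / δ⌉₊ with hN
  have hNlow : 2 / δ ≤ N := Nat.le_ceil _
  have hNup : (N : ℝ) < 2 / δ + 1 := Nat.ceil_lt_add_one (by positivity)
  have hNpos : (0 : ℝ) < N := lt_of_lt_of_le (by positivity) hNlow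
  have hN1 : 1 ≤ N := by exact_mod_cast hNpos
  have hNδ : 2 ≤ N * δ := by
    rwa [div_le_iff₀ hδ] at hNlow
  have hNδ' : (N : ℝ) * δ ≤ 3 := by
    have h1 : (N : ℝ) * δ ≤ (2 / δ + 1) * δ := mul_le_mul_of_nonneg_right hNup.le hδ.le
    have h2 : (2 / δ + 1) * δ = 2 + δ := by
      field_simp
    linarith
  have hNr : (N : ℝ) * (R * δ) ≤ 3 * R := by nlinarith
  have hM : MomN d (1 + c / (d : ℝ)) N (C1 * (N : ℝ) ^ ε) := by
    intro Ω _ _ A D hfam F
    exact hmom N Ω A D hfam F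
  have h1 := hw N (C1 * (N : ℝ) ^ ε) hN1 (by positivity) hM ι P v b (R * δ) (by positivity) hNr
    (fun i k => by
      have := (norm_le_pi_norm (v i) k).trans (hv i)
      rwa [Real.norm_eq_abs] at this)
    (by
      intro i j hij
      by_contra hne
      have h2 := hs i j hne
      have h3 : 0 < ‖v i - v j‖ := lt_of_lt_of_le hδ h2
      obtain ⟨k, hk⟩ := Pool.Agent.Y254.EL.exists_coord h3
      refine Pool.Agent.W605.HM.floor_ne ?_ (hij k)
      have h4 : (N : ℝ) * ((v i k + 1) / 2) - N * ((v j k + 1) / 2) =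
          N / 2 * (v i k - v j k) := by ring
      have h5 : |v i k - v j k| = ‖v i - v j‖ := hk
      rw [h4, abs_mul, abs_of_pos (by positivity : (0 : ℝ) < N / 2), h5]
      nlinarith)
  refine le_trans (lintegral_mono fun z => ENNReal.rpow_le_rpow ?_ (by linarith))
    (h1.trans (ENNReal.ofReal_le_ofReal ?_))
  · unfold Pool.Agent.Y254.mult
    refine Finset.sum_le_sum fun i _ => ?_
    by_cases hz : z ∈ Pool.Agent.Y254.EL.tb R (R * δ) (b i) (P i) (v i)
    · have hz1 : |z.1 - b i| ≤ R ∧ ∀ k, |z.2 k - (P i k + z.1 * v i k)| ≤ R * δ := by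
        refine ⟨hz.1, fun k => ?_⟩
        have h6 := (norm_le_pi_norm _ k).trans hz.2
        simp only [Pi.sub_apply, Pi.smul_apply, smul_eq_mul, Real.norm_eq_abs] at h6
        have h7 : z.2 k - (P i k + z.1 * v i k) = z.2 k - P i k - z.1 * v i k := by ring
        rw [h7]
        exact h6
      rw [Set.indicator_of_mem hz, Pi.one_apply, if_pos hz1]
    · rw [Set.indicator_of_notMem hz]
      exact zero_le
  · have h2 : (N : ℝ) ^ ε ≤ 3 ^ ε * δ ^ (-ε) := by
      rw [Real.rpow_neg hδ.le, ← div_eq_mul_inv, ← Real.div_rpow (by norm_num) hδ.le]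
      refine Real.rpow_le_rpow hNpos.le ?_ hε.le
      rw [le_div_iff₀ hδ]
      exact hNδ'
    have h3 : (N : ℝ) ^ (-(d : ℝ)) ≤ δ ^ d := by
      rw [Real.rpow_neg hNpos.le, Real.rpow_natCast, ← inv_pow]
      refine pow_le_pow_left₀ (by positivity) ?_ d
      rw [inv_le_iff_one_le_mul₀ hNpos]
      linarith
    have h4 : 0 ≤ (Fintype.card ι : ℝ) ^ (1 + c / (d : ℝ) - 1 / (d : ℝ)) := by positivity
    calc C2 * (C1 * (N : ℝ) ^ ε) * (N : ℝ) ^ (-(d : ℝ)) *
          (Fintype.card ι : ℝ) ^ (1 + c / (d : ℝ) - 1 / (d : ℝ))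
        ≤ C2 * (C1 * (3 ^ ε * δ ^ (-ε))) * δ ^ d *
          (Fintype.card ι : ℝ) ^ (1 + c / (d : ℝ) - 1 / (d : ℝ)) := by
          gcongr
      _ = _ := by ring

end Pool.Agent.Y574.HK
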